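import Pool.Agent.H68.Izer.Uniq

/-!
# The determinant formula from recursion and calibration
-/

namespace Pool.Agent.H68.Izer

open Finset Polynomial

section alg

variable {K : Type*} [Field K] [CharZero K]

lemma MM_zero (w : K) (x : Fin 0 → K) : MvPolynomial.eval x (MM 0 w) = 1 := by
  have h := MM_eval w x
  unfold num vd at h
  rw [Matrix.det_isEmpty, Matrix.det_isEmpty, one_pow, one_mul] at h
  exact h.symm

/-- **Determinant formula**, algebraic form. -/
theorem eq_MM {w q : K} (hw : w ≠ 0) (hq : q ^ 2 - q + 1 = 0) (F : ∀ n, (Fin (2 * n) → K) → K)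
    (h0 : ∀ x, F 0 x = 1)
    (hsymm : ∀ n (σ : Equiv.Perm (Fin (2 * n))) x, F n (x ∘ σ) = F n x)
    (hpoly : ∀ n (y : Fin (2 * n + 1) → K), ∃ p : K[X],
      (Function.Injective y → p.natDegree ≤ 4 * n + 2) ∧
      ∀ t, F (n + 1) (Fin.cons t y : Fin (2 * n + 2) → K) = p.eval t)
    (hrec : ∀ n (a b : K) (y : Fin (2 * n) → K), 1 - a + a * b = 0 →
      F (n + 1) (Fin.cons a (Fin.cons b y : Fin (2 * n + 1) → K) : Fin (2 * n + 2) → K) =
        ((a - b) * ∏ k, (D (y k) b * D a (y k))) ^ 2 * F n y)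
    (hcal : ∀ n (y : Fin (2 * n) → K), (∀ k, y k ≠ q) → ∃ g : K[X], ∀ s,
      F (n + 1) (Fin.cons q (Fin.cons s y : Fin (2 * n + 1) → K) : Fin (2 * n + 2) → K) =
        -(w + w⁻¹ + 2) * (s - q) ^ 2 * (∏ k, (y k - q) ^ 4) * F n y + (s - q) ^ 3 * g.eval s) :
    ∀ n x, F n x = (-1) ^ n * (w ^ n)⁻¹ * MvPolynomial.eval x (MM (2 * n) w) := by
  intro n
  induction n with
  | zero =>
    intro x
    rw [h0]
    have := MM_zero w x
    simp only [pow_zero, inv_one, one_mul]
    exact this.symm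
  | succ n ih =>
    set c : ℕ → K := fun n => (-1) ^ n * (w ^ n)⁻¹ with hc
    have hcs : c (n + 1) = -w⁻¹ * c n := by
      simp only [hc, pow_succ, mul_inv]; ring
    set H : (Fin (2 * n + 2) → K) → K := fun x =>
      F (n + 1) x - c (n + 1) * MvPolynomial.eval x (MM (2 * n + 2) w) with hH
    have hH0 : ∀ x, H x = 0 := by
      apply uniq hq
      · intro σ x
        have h1 := hsymm (n + 1) σ x
        have h2 := MM_perm w σ x
        simp only [hH]
        rw [h2]
        congr 1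
      · intro y
        obtain ⟨p, hp1, hp2⟩ := hpoly n y
        refine ⟨p - C (c (n + 1)) * pol (2 * n + 1) w y, fun hy => ?_, fun t => ?_⟩
        · refine (natDegree_sub_le _ _).trans (max_le (hp1 hy) ?_)
          refine (natDegree_C_mul_le _ _).trans ?_
          have := natDegree_pol_le w hy
          omega
        · simp only [hH]
          rw [hp2, eval_sub, eval_mul, eval_C, pol_eval]
      · intro a b y hab
        simp only [hH]
        rw [hrec n a b y hab, MM_rec w a b hab, ih y, hcs]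
        have : (-1 : K) ^ n * (w ^ n)⁻¹ = c n := rfl
        rw [this]
        field_simp
        ring
      · intro y hy
        obtain ⟨g, hg⟩ := hcal n y hy
        -- the polynomial of `MM` in the second variable
        have e0 : MvPolynomial.eval (Fin.cons q y : Fin (2 * n + 1) → K) (MM (2 * n + 1) w) =
            (w + 1) * (∏ k, (y k - q) ^ 2) * MvPolynomial.eval y (MM (2 * n) w) := MM_q w q hq y
        obtain ⟨r, hr⟩ : ∃ r : K[X], pol (2 * n) w y =
            C ((pol (2 * n) w y).eval q) + (X - C q) * r := by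
          have h2 : (X - C q) ∣ pol (2 * n) w y - C ((pol (2 * n) w y).eval q) :=
            X_sub_C_dvd_sub_C_eval
          obtain ⟨r, hr⟩ := h2
          exact ⟨r, by rw [← hr]; ring⟩
        have e1 : ∀ s, MvPolynomial.eval (Fin.cons q (Fin.cons s y : Fin (2 * n + 1) → K) :
            Fin (2 * n + 2) → K) (MM (2 * n + 2) w) =
            (w + 1) * ((s - q) ^ 2 * ∏ k, (y k - q) ^ 2) *
              ((w + 1) * (∏ k, (y k - q) ^ 2) * MvPolynomial.eval y (MM (2 * n) w) +
                (s - q) * r.eval s) := by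
          intro s
          rw [MM_q w q hq, Fin.prod_univ_succ]
          simp only [Fin.cons_zero, Fin.cons_succ]
          have h1 := pol_eval w y s
          have h2 := pol_eval w y q
          rw [← h1, ← e0, ← h2]
          conv_lhs => rw [hr]
          simp only [eval_add, eval_C, eval_mul, eval_sub, eval_X]
        refine ⟨g - C (c (n + 1) * (w + 1) * ∏ k, (y k - q) ^ 2) * r, fun s => ?_⟩
        simp only [hH]
        rw [hg, e1, ih y, hcs]
        have h3 : (∏ k, (y k - q) ^ 4) = (∏ k, (y k - q) ^ 2) * ∏ k, (y k - q) ^ 2 := by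
          rw [← Finset.prod_mul_distrib]
          exact Finset.prod_congr rfl fun k _ => by ring
        have h4 : (-1 : K) ^ n * (w ^ n)⁻¹ = c n := rfl
        rw [h3, h4]
        simp only [eval_sub, eval_mul, eval_C]
        field_simp
        ring
    intro x
    have := hH0 x
    simp only [hH] at this
    exact sub_eq_zero.mp this

end alg

section complex

open Filter Topology

lemma eval_zero_of_tendsto {P : ℂ[X]} {c : ℂ}
    (h : Tendsto (fun e => P.eval e) (𝓝[≠] 0) (𝓝 c)) : P.eval 0 = c := by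
  have h1 : Tendsto (fun e => P.eval e) (𝓝[≠] (0 : ℂ)) (𝓝 (P.eval 0)) :=
    (P.continuous.tendsto 0).mono_left nhdsWithin_le_nhds
  exact tendsto_nhds_unique h1 h

lemma exists_mul_X {P : ℂ[X]} (h : P.eval 0 = 0) : ∃ Q : ℂ[X], P = X * Q := by
  rw [← coeff_zero_eq_eval_zero] at h
  exact X_dvd_iff.mpr h

lemma exists_of_tendsto {p : ℂ[X]} {q c : ℂ}
    (h : Tendsto (fun e => p.eval (q + e) / e ^ 2) (𝓝[≠] 0) (𝓝 c)) :
    ∃ g : ℂ[X], ∀ s, p.eval s = c * (s - q) ^ 2 + (s - q) ^ 3 * g.eval s := by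
  set P : ℂ[X] := p.comp (X + C q) with hP
  have hPe : ∀ e, P.eval e = p.eval (q + e) := by
    intro e
    rw [hP, eval_comp, eval_add, eval_X, eval_C, add_comm]
  have hid : Tendsto (fun e : ℂ => e) (𝓝[≠] 0) (𝓝 0) := tendsto_id.mono_left nhdsWithin_le_nhds
  have h1 : P.eval 0 = 0 := by
    apply eval_zero_of_tendsto
    have h2 := (hid.pow 2).mul h
    rw [zero_pow two_ne_zero, zero_mul] at h2
    refine h2.congr' ?_
    filter_upwards [self_mem_nhdsWithin] with e he
    have he' : e ≠ 0 := he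
    rw [hPe]
    field_simp
  obtain ⟨P1, hP1⟩ := exists_mul_X h1
  have h3 : P1.eval 0 = 0 := by
    apply eval_zero_of_tendsto
    have h2 := hid.mul h
    rw [zero_mul] at h2
    refine h2.congr' ?_
    filter_upwards [self_mem_nhdsWithin] with e he
    have he' : e ≠ 0 := he
    rw [← hPe, hP1, eval_mul, eval_X]
    field_simp
  obtain ⟨P2, hP2⟩ := exists_mul_X h3
  have h4 : P2.eval 0 = c := by
    apply eval_zero_of_tendsto
    refine h.congr' ?_
    filter_upwards [self_mem_nhdsWithin] with e he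
    have he' : e ≠ 0 := he
    rw [← hPe, hP1, hP2, eval_mul, eval_mul, eval_X]
    field_simp
  have h5 : (P2 - C c).eval 0 = 0 := by rw [eval_sub, h4, eval_C, sub_self]
  obtain ⟨P3, hP3⟩ := exists_mul_X h5
  have hP2' : P2 = C c + X * P3 := by rw [← hP3]; ring
  refine ⟨P3.comp (X - C q), fun s => ?_⟩
  have h6 := hPe (s - q)
  rw [add_sub_cancel] at h6
  rw [← h6, hP1, hP2, hP2']
  simp only [eval_mul, eval_X, eval_add, eval_C, eval_comp, eval_sub]
  ring

/-- **Determinant formula.**  A family `F` of symmetric, separately polynomial functions of degree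
at most `2 L - 2` in each variable (`L = 2 n`), with the recursion at `1 - a + a b = 0` and the
calibration at the fixed point `q`, is given by the polynomial `MM`. -/
theorem eq_MM_complex {w q : ℂ} (hw : w ≠ 0) (hq : q ^ 2 - q + 1 = 0)
    (F : ∀ n, (Fin (2 * n) → ℂ) → ℂ)
    (h0 : ∀ x, F 0 x = 1)
    (hsymm : ∀ n (σ : Equiv.Perm (Fin (2 * n))) x, F n (x ∘ σ) = F n x)
    (hpoly : ∀ n x i, ∃ p : ℂ[X], p.natDegree ≤ 4 * n - 2 ∧
      ∀ t, F n (Function.update x i t) = p.eval t)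
    (hrec : ∀ n (a b : ℂ) (x : Fin (2 * n) → ℂ), 1 - a + a * b = 0 →
      F (n + 1) (Fin.cons a (Fin.cons b x : Fin (2 * n + 1) → ℂ) : Fin (2 * n + 2) → ℂ) =
        ((1 - b + b * a) * ∏ k, ((1 - b + b * x k) * (1 - x k + x k * a))) ^ 2 * F n x)
    (hcal : ∀ n (x : Fin (2 * n) → ℂ), (∀ k, x k ≠ q) → Tendsto (fun e : ℂ =>
      F (n + 1) (Fin.cons (q + e) (Fin.cons q x : Fin (2 * n + 1) → ℂ) : Fin (2 * n + 2) → ℂ) /
        e ^ 2) (𝓝[≠] 0) (𝓝 (-(w + w⁻¹ + 2) * (∏ k, (x k - q) ^ 4) * F n x))) :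
    ∀ n x, F n x = (-1) ^ n * (w ^ n)⁻¹ * MvPolynomial.eval x (MM (2 * n) w) := by
  apply eq_MM hw hq F h0 hsymm
  · intro n y
    obtain ⟨p, hp1, hp2⟩ := hpoly (n + 1) (Fin.cons 0 y : Fin (2 * n + 2) → ℂ)
      (0 : Fin (2 * n + 2))
    refine ⟨p, fun _ => by omega, fun t => ?_⟩
    rw [← hp2 t]
    congr 1
    exact (Fin.update_cons_zero (α := fun _ : Fin (2 * n + 2) => ℂ) 0 y t).symm
  · intro n a b y hab
    rw [hrec n a b y hab]
    have e1 : 1 - b + b * a = a - b := by linear_combination hab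
    have e2 : ∏ k, ((1 - b + b * y k) * (1 - y k + y k * a)) = ∏ k, (D (y k) b * D a (y k)) := by
      apply Finset.prod_congr rfl
      intro k _
      unfold D; ring
    rw [e1, e2]
  · intro n y hy
    obtain ⟨p, -, hp2⟩ := hpoly (n + 1) (Fin.cons 0 (Fin.cons q y : Fin (2 * n + 1) → ℂ) :
      Fin (2 * n + 2) → ℂ) (0 : Fin (2 * n + 2))
    have hp3 : ∀ t, F (n + 1) (Fin.cons t (Fin.cons q y : Fin (2 * n + 1) → ℂ) :
        Fin (2 * n + 2) → ℂ) = p.eval t := by
      intro t
      rw [← hp2 t]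
      congr 1
      exact (Fin.update_cons_zero (α := fun _ : Fin (2 * n + 2) => ℂ) 0 _ t).symm
    have hc := hcal n y hy
    simp only [hp3] at hc
    obtain ⟨g, hg⟩ := exists_of_tendsto hc
    refine ⟨g, fun s => ?_⟩
    have h1 := hsymm (n + 1) (Equiv.swap (0 : Fin (2 * n + 2)) 1)
      (Fin.cons s (Fin.cons q y : Fin (2 * n + 1) → ℂ) : Fin (2 * n + 2) → ℂ)
    have h2 : (Fin.cons s (Fin.cons q y : Fin (2 * n + 1) → ℂ) : Fin (2 * n + 2) → ℂ) ∘
        (Equiv.swap (0 : Fin (2 * n + 2)) 1) =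
        (Fin.cons q (Fin.cons s y : Fin (2 * n + 1) → ℂ) : Fin (2 * n + 2) → ℂ) := by
      funext k
      refine Fin.cases ?_ (fun k => Fin.cases ?_ (fun k => ?_) k) k
      · simp only [Function.comp_apply, Equiv.swap_apply_left, Fin.cons_zero]
        rfl
      · show (Fin.cons s (Fin.cons q y : Fin (2 * n + 1) → ℂ) : Fin (2 * n + 2) → ℂ)
          (Equiv.swap 0 1 1) = _
        rw [Equiv.swap_apply_right]
        rfl
      · simp only [Function.comp_apply]
        rw [Equiv.swap_apply_of_ne_of_ne (Fin.succ_ne_zero _)]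
        · rfl
        · intro h
          rw [← Fin.succ_zero_eq_one, Fin.succ_inj] at h
          exact Fin.succ_ne_zero _ h
    have h3 : F (n + 1) (Fin.cons q (Fin.cons s y : Fin (2 * n + 1) → ℂ) :
        Fin (2 * n + 2) → ℂ) = p.eval s := by
      rw [← hp3 s]
      exact (congrArg (F (n + 1)) h2).symm.trans h1
    rw [h3, hg]
    ring

/-- **Determinant formula** at generic points. -/
theorem eq_RHS {w q : ℂ} (hw : w ≠ 0) (hq : q ^ 2 - q + 1 = 0)
    (F : ∀ n, (Fin (2 * n) → ℂ) → ℂ)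
    (h0 : ∀ x, F 0 x = 1)
    (hsymm : ∀ n (σ : Equiv.Perm (Fin (2 * n))) x, F n (x ∘ σ) = F n x)
    (hpoly : ∀ n x i, ∃ p : ℂ[X], p.natDegree ≤ 4 * n - 2 ∧
      ∀ t, F n (Function.update x i t) = p.eval t)
    (hrec : ∀ n (a b : ℂ) (x : Fin (2 * n) → ℂ), 1 - a + a * b = 0 →
      F (n + 1) (Fin.cons a (Fin.cons b x : Fin (2 * n + 1) → ℂ) : Fin (2 * n + 2) → ℂ) =
        ((1 - b + b * a) * ∏ k, ((1 - b + b * x k) * (1 - x k + x k * a))) ^ 2 * F n x)
    (hcal : ∀ n (x : Fin (2 * n) → ℂ), (∀ k, x k ≠ q) → Tendsto (fun e : ℂ =>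
      F (n + 1) (Fin.cons (q + e) (Fin.cons q x : Fin (2 * n + 1) → ℂ) : Fin (2 * n + 2) → ℂ) /
        e ^ 2) (𝓝[≠] 0) (𝓝 (-(w + w⁻¹ + 2) * (∏ k, (x k - q) ^ 4) * F n x)))
    (n : ℕ) (x : Fin (2 * n) → ℂ) (hx : Function.Injective x)
    (hD : ∀ i j, D (x i) (x j) ≠ 0) : F n x = RHS w n x := by
  rw [eq_MM_complex hw hq F h0 hsymm hpoly hrec hcal n x, RHS_eq w n x hx hD]

end complex

end Pool.Agent.H68.Izer
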