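import Pool.Agent.H68.Izer.Basic

/-!
# The determinant expression
-/

namespace Pool.Agent.H68.Izer

open Finset Matrix

/-- The Izergin type determinant expression. -/
noncomputable def RHS {K : Type*} [Field K] (w : K) (n : ℕ) (x : Fin (2 * n) → K) : K :=
  (-1) ^ n * (w ^ n)⁻¹ * det (of fun i j => w / D (x j) (x i) + 1 / D (x i) (x j)) *
    (∏ i, D (x i) (x i)) *
    ∏ i, ∏ j ∈ Ioi i, (D (x i) (x j) * D (x j) (x i)) ^ 2 / (x i - x j) ^ 2

end Pool.Agent.H68.Izer
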