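import Mathlib

/-!
# An Izergin type determinant: the numerator

`D a b = 1 - b + a * b`.  For parameters `x : Fin L → R` in a commutative ring and `w : R` we
consider the numerator of `det (w / D (x j) (x i) + 1 / D (x i) (x j))`.
-/

namespace Pool.Agent.H68.Izer

open Finset Matrix

/-- `D a b = 1 - b + a b` -/
def D {R : Type*} [CommRing R] (a b : R) : R := 1 - b + a * b

/-- `gg a b = D a b * D b a` -/
def gg {R : Type*} [CommRing R] (a b : R) : R := D a b * D b a

lemma gg_comm {R : Type*} [CommRing R] (a b : R) : gg a b = gg b a := by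
  unfold gg; ring

section ring

variable {R : Type*} [CommRing R] {L : ℕ}

/-- entry of the numerator matrix -/
def ent (w : R) (x : Fin L → R) (i j : Fin L) : R :=
  (if i = j then w + 1 else (w * D (x i) (x j) + D (x j) (x i)) * D (x i) (x i)) *
    ∏ k, if k = i ∨ k = j then 1 else gg (x i) (x k)

/-- the numerator -/
def num (w : R) (x : Fin L → R) : R := det (of fun i j => ent w x i j)

/-- the Vandermonde product -/
def vd (x : Fin L → R) : R := det (vandermonde x)

lemma map_D {S : Type*} [CommRing S] (f : R →+* S) (a b : R) : f (D a b) = D (f a) (f b) := by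
  simp [D]

lemma map_gg {S : Type*} [CommRing S] (f : R →+* S) (a b : R) : f (gg a b) = gg (f a) (f b) := by
  simp [gg, map_D]

lemma map_ent {S : Type*} [CommRing S] (f : R →+* S) (w : R) (x : Fin L → R) (i j : Fin L) :
    f (ent w x i j) = ent (f w) (fun k => f (x k)) i j := by
  unfold ent
  rw [map_mul, map_prod]
  congr 1
  · split_ifs <;> simp [map_D]
  · apply Finset.prod_congr rfl
    intro k _
    split_ifs
    · exact map_one f
    · exact map_gg f _ _

lemma map_num {S : Type*} [CommRing S] (f : R →+* S) (w : R) (x : Fin L → R) :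
    f (num w x) = num (f w) (fun k => f (x k)) := by
  unfold num
  rw [RingHom.map_det]
  congr 1
  ext i j
  simp only [RingHom.mapMatrix_apply, Matrix.map_apply, of_apply]
  exact map_ent f w x i j

lemma map_vd {S : Type*} [CommRing S] (f : R →+* S) (x : Fin L → R) :
    f (vd x) = vd (fun k => f (x k)) := by
  unfold vd
  rw [RingHom.map_det]
  congr 1
  ext i j
  simp [vandermonde_apply]

lemma ent_perm (w : R) (x : Fin L → R) (σ : Equiv.Perm (Fin L)) (i j : Fin L) :
    ent w (x ∘ σ) i j = ent w x (σ i) (σ j) := by
  unfold ent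
  simp only [Function.comp_apply, σ.injective.eq_iff]
  congr 1
  apply Finset.prod_equiv σ (by simp)
  intro k _
  simp only [σ.injective.eq_iff]

lemma num_perm (w : R) (x : Fin L → R) (σ : Equiv.Perm (Fin L)) :
    num w (x ∘ σ) = num w x := by
  unfold num
  rw [← det_submatrix_equiv_self σ (of fun i j => ent w x i j)]
  congr 1
  ext i j
  simp only [of_apply, submatrix_apply]
  exact ent_perm w x σ i j

lemma vd_perm (x : Fin L → R) (σ : Equiv.Perm (Fin L)) :
    vd (x ∘ σ) ^ 2 = vd x ^ 2 := by
  have h : vandermonde (x ∘ σ) = (vandermonde x).submatrix σ id := by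
    ext i j; simp [vandermonde_apply]
  unfold vd
  rw [h, det_permute, mul_pow]
  have : ((Equiv.Perm.sign σ : ℤ) : R) ^ 2 = 1 := by
    rcases Int.units_eq_one_or (Equiv.Perm.sign σ) with h | h <;> simp [h]
  rw [this, one_mul]

lemma vd_cons (a : R) (y : Fin L → R) :
    vd (Fin.cons a y : Fin (L + 1) → R) = (∏ k, (y k - a)) * vd y := by
  unfold vd
  rw [det_vandermonde, det_vandermonde, Fin.prod_univ_succ]
  congr 1
  · rw [Fin.prod_Ioi_zero]
    simp
  · apply Finset.prod_congr rfl
    intro i _
    rw [Fin.prod_Ioi_succ]
    simp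

/-- the numerator vanishes when two parameters are equal -/
lemma num_eq_zero (w : R) (x : Fin L → R) {i j : Fin L} (hij : i ≠ j) (hx : x i = x j) :
    num w x = 0 := by
  unfold num
  apply det_zero_of_row_eq hij
  funext m
  simp only [of_apply]
  have hσ : x ∘ (Equiv.swap i j) = x := by
    funext k
    simp only [Function.comp_apply]
    rcases eq_or_ne k i with h | h
    · rw [h, Equiv.swap_apply_left, hx]
    · rcases eq_or_ne k j with h' | h'
      · rw [h', Equiv.swap_apply_right, hx]
      · rw [Equiv.swap_apply_of_ne_of_ne h h']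
  have key : ∀ a b, ent w x a b = ent w x (Equiv.swap i j a) (Equiv.swap i j b) := by
    intro a b
    have := ent_perm w x (Equiv.swap i j) a b
    rw [hσ] at this
    exact this
  have h1 : ent w x i i = ent w x i j := by
    unfold ent
    rw [if_pos rfl, if_neg hij]
    have e1 : (∏ k, if k = i ∨ k = i then 1 else gg (x i) (x k)) =
        gg (x i) (x j) * ∏ k, if k = i ∨ k = j then 1 else gg (x i) (x k) := by
      rw [← Finset.mul_prod_erase univ _ (mem_univ j), ← Finset.mul_prod_erase univ
        (fun k => if k = i ∨ k = j then 1 else gg (x i) (x k)) (mem_univ j)]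
      rw [if_neg (by simp [Ne.symm hij]), if_pos (by simp), one_mul]
      congr 1
      apply Finset.prod_congr rfl
      intro k hk
      have hk' : k ≠ j := Finset.ne_of_mem_erase hk
      simp [hk']
    rw [e1, ← hx]
    unfold gg
    ring
  rcases eq_or_ne m i with hm | hm
  · subst hm
    rw [h1, key m j, Equiv.swap_apply_left, Equiv.swap_apply_right]
  · rcases eq_or_ne m j with hm' | hm'
    · subst hm'
      rw [← h1, key i i, Equiv.swap_apply_left]
    · have := key i m
      rw [Equiv.swap_apply_left, Equiv.swap_apply_of_ne_of_ne hm hm'] at this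
      exact this

lemma ent_succ (w a : R) (y : Fin L → R) (l m : Fin L) :
    ent w (Fin.cons a y : Fin (L + 1) → R) l.succ m.succ = gg (y l) a * ent w y l m := by
  unfold ent
  rw [Fin.prod_univ_succ]
  simp only [Fin.cons_succ, Fin.cons_zero, Fin.succ_inj, (Fin.succ_ne_zero _).symm, or_self,
    if_false]
  ring

/-- value at a fixed point `q` of the order three map -/
theorem num_q (w q : R) (hq : q ^ 2 - q + 1 = 0) (y : Fin L → R) :
    num w (Fin.cons q y : Fin (L + 1) → R) = (w + 1) * (∏ k, gg q (y k)) ^ 2 * num w y := by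
  have hqq : D q q = 0 := by unfold D; linear_combination hq
  unfold num
  rw [det_succ_row_zero, Fin.sum_univ_succ, Finset.sum_eq_zero, add_zero]
  · have e0 : ent w (Fin.cons q y : Fin (L + 1) → R) 0 0 = (w + 1) * ∏ k, gg q (y k) := by
      unfold ent
      rw [if_pos rfl, Fin.prod_univ_succ]
      simp [Fin.succ_ne_zero]
    have e1 : ((of fun i j => ent w (Fin.cons q y : Fin (L + 1) → R) i j).submatrix Fin.succ
        (Fin.succAbove 0)) = of fun i j => gg (y i) q * (of fun i j => ent w y i j) i j := by
      ext i j
      simp only [submatrix_apply, of_apply, Fin.succAbove_zero]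
      exact ent_succ w q y i j
    rw [e1, det_mul_column]
    simp only [of_apply, Fin.val_zero, pow_zero, one_mul]
    rw [e0]
    have e2 : ∏ i, gg (y i) q = ∏ i, gg q (y i) := Finset.prod_congr rfl fun i _ => gg_comm _ _
    rw [e2]
    ring
  · intro j _
    have : ent w (Fin.cons q y : Fin (L + 1) → R) 0 j.succ = 0 := by
      unfold ent
      rw [if_neg (Fin.succ_ne_zero j).symm]
      simp [hqq]
    simp only [of_apply, this]
    ring

/-- value when `1 - a + a b = 0` -/
theorem num_rec (w a b : R) (hab : 1 - a + a * b = 0) (y : Fin L → R) :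
    num w (Fin.cons a (Fin.cons b y : Fin (L + 1) → R) : Fin (L + 2) → R) =
      -w * (a - b) ^ 4 * (∏ k, gg a (y k) * gg b (y k)) ^ 2 * num w y := by
  set x : Fin (L + 2) → R := Fin.cons a (Fin.cons b y : Fin (L + 1) → R) with hx
  have x0 : x 0 = a := rfl
  have x1 : x 1 = b := rfl
  have xs : ∀ k : Fin L, x k.succ.succ = y k := fun k => rfl
  have hba : D b a = 0 := by unfold D; linear_combination hab
  have hg : gg a b = 0 := by unfold gg; rw [hba, mul_zero]
  have hg' : gg b a = 0 := by rw [gg_comm]; exact hg
  have h0 : ∀ j : Fin (L + 2), j ≠ 1 → ent w x 0 j = 0 := by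
    intro j hj
    unfold ent
    rw [Finset.prod_eq_zero (mem_univ (1 : Fin (L + 2))), mul_zero]
    rw [if_neg, x0, x1]
    · exact hg
    · rintro (h | h)
      · exact absurd h (by simp)
      · exact hj h.symm
  have h1 : ∀ j : Fin (L + 2), j ≠ 0 → ent w x 1 j = 0 := by
    intro j hj
    unfold ent
    rw [Finset.prod_eq_zero (mem_univ (0 : Fin (L + 2))), mul_zero]
    rw [if_neg, x0, x1]
    · exact hg'
    · rintro (h | h)
      · exact absurd h (by simp)
      · exact hj h.symm
  have e01 : ent w x 0 1 = w * (a - b) * D a a * ∏ k, gg a (y k) := by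
    unfold ent
    rw [if_neg (by simp), Fin.prod_univ_succ, Fin.prod_univ_succ]
    have s1 : (Fin.succ (0 : Fin (L + 1))) = 1 := rfl
    have s2 : ∀ k : Fin L, ¬ (k.succ.succ = (0 : Fin (L + 2)) ∨ k.succ.succ = (1 : Fin (L + 2))) := by
      intro k h
      rcases h with h | h
      · exact Fin.succ_ne_zero _ h
      · rw [← s1, Fin.succ_inj] at h
        exact Fin.succ_ne_zero _ h
    simp only [s1, s2, if_false, xs, x0, x1, true_or, or_true, if_true, one_mul, hba, add_zero]
    have : D a b = a - b := by unfold D; linear_combination hab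
    rw [this]
  have e10 : ent w x 1 0 = (a - b) * D b b * ∏ k, gg b (y k) := by
    unfold ent
    rw [if_neg (by simp), Fin.prod_univ_succ, Fin.prod_univ_succ]
    have s1 : (Fin.succ (0 : Fin (L + 1))) = 1 := rfl
    have s2 : ∀ k : Fin L, ¬ (k.succ.succ = (1 : Fin (L + 2)) ∨ k.succ.succ = (0 : Fin (L + 2))) := by
      intro k h
      rcases h with h | h
      · rw [← s1, Fin.succ_inj] at h
        exact Fin.succ_ne_zero _ h
      · exact Fin.succ_ne_zero _ h
    simp only [s1, s2, if_false, xs, x0, x1, true_or, or_true, if_true, one_mul, hba, mul_zero,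
      zero_add]
    have : D a b = a - b := by unfold D; linear_combination hab
    rw [this]
  have hDD : D a a * D b b = (a - b) ^ 2 := by
    unfold D
    have e : a * (1 - b) = 1 := by linear_combination -hab
    have e1 : 1 - a + a * a = a * (a - b) := by linear_combination hab
    have e2 : 1 - b + b * b = (a - b) * (1 - b) := by linear_combination -e
    rw [e1, e2]
    linear_combination (a - b) ^ 2 * e
  unfold num
  rw [det_succ_row_zero, Finset.sum_eq_single (1 : Fin (L + 2))]
  · rw [det_succ_row_zero, Finset.sum_eq_single (0 : Fin (L + 1))]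
    · have e1 : (((of fun i j => ent w x i j).submatrix Fin.succ (Fin.succAbove 1)).submatrix
          Fin.succ (Fin.succAbove 0)) =
          of fun i j => (gg a (y i) * gg b (y i)) * (of fun i j => ent w y i j) i j := by
        ext i j
        simp only [submatrix_apply, of_apply, Fin.succAbove_zero]
        have : (1 : Fin (L + 2)).succAbove j.succ = j.succ.succ := by
          rw [← Fin.succ_zero_eq_one, Fin.succ_succAbove_succ, Fin.succAbove_zero]
        rw [this, hx, ent_succ, ent_succ]
        simp only [Fin.cons_succ]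
        rw [gg_comm (y i) a, gg_comm (y i) b]
        ring
      rw [e1, det_mul_column]
      have s0 : (1 : Fin (L + 2)).succAbove 0 = 0 := by
        rw [← Fin.succ_zero_eq_one]
        exact Fin.succ_succAbove_zero 0
      have s1 : (Fin.succ (0 : Fin (L + 1))) = 1 := rfl
      simp only [submatrix_apply, of_apply, Fin.val_zero, Fin.val_one, pow_zero, pow_one, one_mul,
        s0, s1, e01, e10, Finset.prod_mul_distrib]
      linear_combination (-w * (a - b) ^ 2 * (∏ k, gg a (y k)) ^ 2 * (∏ k, gg b (y k)) ^ 2 *
        det (of fun i j => ent w y i j)) * hDD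
    · intro j _ hj
      have s1 : (Fin.succ (0 : Fin (L + 1))) = 1 := rfl
      simp only [submatrix_apply, of_apply, s1]
      rw [h1, mul_zero, zero_mul]
      obtain ⟨j', rfl⟩ := Fin.exists_succ_eq.mpr hj
      rw [← Fin.succ_zero_eq_one, Fin.succ_succAbove_succ]
      exact Fin.succ_ne_zero _
    · intro h; exact absurd (mem_univ _) h
  · intro j _ hj
    simp only [of_apply]
    rw [h0 j hj, mul_zero, zero_mul]
  · intro h; exact absurd (mem_univ _) h

/-- the algebraic identity behind the recursion -/
lemma gg_gg (a b y : R) (hab : 1 - a + a * b = 0) :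
    gg a y * gg b y = -(D y b * D a y) * ((a - y) * (b - y)) := by
  have e : a * (1 - b) = 1 := by linear_combination -hab
  have e1 : D y a = a * (y - b) := by unfold D; linear_combination hab
  have e2 : D b y = (a - y) * (1 - b) := by unfold D; linear_combination -e
  unfold gg
  rw [e1, e2]
  linear_combination (D y b * D a y * (y - b) * (a - y)) * e

lemma gg_q (q y : R) (hq : q ^ 2 - q + 1 = 0) : gg q y = -(y - q) ^ 2 := by
  unfold gg D
  linear_combination (y ^ 2 - y + 1) * hq - 0 * hq

end ring

end Pool.Agent.H68.Izer
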