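import Pool.Agent.H68.Izer.Quot
import Pool.Agent.H68.Izer.RHS

/-!
# Degree bound and the generic formula
-/

namespace Pool.Agent.H68.Izer

open Finset Polynomial

section deg

variable {K : Type*} [Field K] {L : ℕ}

lemma natDegree_D_XC (b : K) : (D (X : K[X]) (C b)).natDegree ≤ 1 := by
  unfold D; compute_degree

lemma natDegree_D_CX (b : K) : (D (C b) (X : K[X])).natDegree ≤ 1 := by
  unfold D; compute_degree

lemma natDegree_D_XX : (D (X : K[X]) X).natDegree ≤ 2 := by
  unfold D; compute_degree

lemma natDegree_D_CC (a b : K) : (D (C a) (C b : K[X])).natDegree ≤ 0 := by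
  unfold D; compute_degree

lemma natDegree_gg_XC (b : K) : (gg (X : K[X]) (C b)).natDegree ≤ 2 := by
  unfold gg
  exact (natDegree_mul_le).trans (add_le_add (natDegree_D_XC b) (natDegree_D_CX b))

lemma natDegree_det_le {B : Matrix (Fin (L + 1)) (Fin (L + 1)) K[X]}
    (h00 : (B 0 0).natDegree ≤ 2 * L) (h0 : ∀ m : Fin L, (B 0 m.succ).natDegree ≤ 2 * L + 1)
    (h1 : ∀ l : Fin L, (B l.succ 0).natDegree ≤ 1)
    (h2 : ∀ l m : Fin L, (B l.succ m.succ).natDegree ≤ 2) :
    B.det.natDegree ≤ 4 * L := by
  set α : Fin (L + 1) → ℕ := Fin.cons (2 * L + 1) (fun _ => 2) with hα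
  have hb : ∀ i j, (B i j).natDegree + (if j = 0 then 1 else 0) ≤ α i := by
    intro i j
    refine Fin.cases ?_ (fun l => ?_) i <;> refine Fin.cases ?_ (fun m => ?_) j
    · simp only [hα, Fin.cons_zero, if_true]; omega
    · simp only [hα, Fin.cons_zero, Fin.succ_ne_zero, if_false, add_zero]; exact h0 m
    · simp only [hα, Fin.cons_succ, if_true]; have := h1 l; omega
    · simp only [hα, Fin.cons_succ, Fin.succ_ne_zero, if_false, add_zero]; exact h2 l m
  rw [Matrix.det_apply]
  apply natDegree_sum_le_of_forall_le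
  intro σ _
  refine (natDegree_smul_le _ _).trans ?_
  refine (natDegree_prod_le _ _).trans ?_
  have hsum : ∑ i, ((B (σ i) i).natDegree + if i = 0 then 1 else 0) ≤ ∑ i, α (σ i) :=
    Finset.sum_le_sum fun i _ => hb (σ i) i
  have hsum2 : ∑ i, α i = 4 * L + 1 := by
    rw [Fin.sum_univ_succ]
    simp only [hα, Fin.cons_zero, Fin.cons_succ, Finset.sum_const, Finset.card_univ,
      Fintype.card_fin, smul_eq_mul]
    omega
  have hsum3 : ∑ i : Fin (L + 1), (if i = 0 then 1 else 0) = 1 := by
    rw [Finset.sum_ite_eq', if_pos (mem_univ _)]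
  rw [Finset.sum_add_distrib, hsum3, Equiv.sum_comp σ α, hsum2] at hsum
  have e : ∑ i, (B (σ i) i).natDegree = ∑ i, (natDegree ∘ fun i => B (σ i) i) i := rfl
  omega

lemma natDegree_num_le (w : K) (y : Fin L → K) :
    (num (C w) (Fin.cons X (fun k => C (y k)) : Fin (L + 1) → K[X])).natDegree ≤ 4 * L := by
  set x : Fin (L + 1) → K[X] := Fin.cons X (fun k => C (y k)) with hx
  have x0 : x 0 = X := rfl
  have xs : ∀ k : Fin L, x k.succ = C (y k) := fun k => rfl
  have hsum1 : ∀ f : K[X], f.natDegree ≤ 1 → (C w * f).natDegree ≤ 1 := fun f hf =>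
    (natDegree_C_mul_le _ _).trans hf
  unfold num
  apply natDegree_det_le
  · rw [Matrix.of_apply]
    unfold ent
    rw [if_pos rfl, Fin.prod_univ_succ]
    simp only [if_true, one_mul, Fin.succ_ne_zero, or_self, if_false, x0, xs]
    refine (natDegree_mul_le).trans ?_
    have h1 : (C w + 1 : K[X]).natDegree ≤ 0 := by compute_degree
    have h2 : (∏ k : Fin L, gg (X : K[X]) (C (y k))).natDegree ≤ 2 * L := by
      refine (natDegree_prod_le _ _).trans ?_
      refine (Finset.sum_le_sum (fun k _ => natDegree_gg_XC (y k))).trans ?_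
      simp [mul_comm]
    omega
  · intro m
    rw [Matrix.of_apply]
    unfold ent
    rw [if_neg (Fin.succ_ne_zero m).symm, Fin.prod_univ_succ]
    simp only [true_or, if_true, one_mul, Fin.succ_ne_zero, false_or, Fin.succ_inj, x0, xs]
    have hL : 1 ≤ L := by have := m.2; omega
    have h1 : (C w * D X (C (y m)) + D (C (y m)) X : K[X]).natDegree ≤ 1 :=
      natDegree_add_le_of_degree_le (hsum1 _ (natDegree_D_XC _)) (natDegree_D_CX _)
    have h2 : (∏ k : Fin L, if k = m then 1 else gg (X : K[X]) (C (y k))).natDegree ≤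
        2 * (L - 1) := by
      refine (natDegree_prod_le _ _).trans ?_
      have : ∀ k : Fin L, (natDegree ∘ fun k : Fin L => if k = m then 1 else
          gg (X : K[X]) (C (y k))) k ≤ if k = m then 0 else 2 := by
        intro k
        simp only [Function.comp_apply]
        split_ifs
        · simp
        · exact natDegree_gg_XC _
      refine (Finset.sum_le_sum (fun k _ => this k)).trans ?_
      rw [Finset.sum_ite, Finset.sum_const_zero, zero_add, Finset.sum_const, smul_eq_mul]
      have : (Finset.filter (fun k => ¬ k = m) univ).card = L - 1 := by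
        rw [Finset.filter_not, Finset.filter_eq', if_pos (mem_univ _), Finset.card_sdiff]
        simp
      rw [this]; omega
    refine (natDegree_mul_le).trans ?_
    have h3 := (natDegree_mul_le (p := (C w * D X (C (y m)) + D (C (y m)) X : K[X]))
      (q := D (X : K[X]) X)).trans (add_le_add h1 natDegree_D_XX)
    omega
  · intro l
    rw [Matrix.of_apply]
    unfold ent
    rw [if_neg (Fin.succ_ne_zero l), Fin.prod_univ_succ]
    simp only [or_true, if_true, one_mul, Fin.succ_ne_zero, or_false, Fin.succ_inj, x0, xs]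
    have h1 : (C w * D (C (y l)) X + D X (C (y l)) : K[X]).natDegree ≤ 1 :=
      natDegree_add_le_of_degree_le (hsum1 _ (natDegree_D_CX _)) (natDegree_D_XC _)
    have h2 : (∏ k : Fin L, if k = l then 1 else gg (C (y l) : K[X]) (C (y k))).natDegree ≤ 0 := by
      refine (natDegree_prod_le _ _).trans ?_
      refine (Finset.sum_le_sum (g := fun _ => 0) (fun k _ => ?_)).trans (by simp)
      show (if k = l then 1 else gg (C (y l) : K[X]) (C (y k))).natDegree ≤ 0
      split_ifs
      · simp
      · unfold gg
        exact (natDegree_mul_le).trans (add_le_add (natDegree_D_CC _ _) (natDegree_D_CC _ _))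
    refine (natDegree_mul_le).trans ?_
    have h3 := (natDegree_mul_le (p := (C w * D (C (y l)) X + D X (C (y l)) : K[X]))
      (q := D (C (y l) : K[X]) (C (y l)))).trans (add_le_add h1 (natDegree_D_CC _ _))
    omega
  · intro l m
    rw [Matrix.of_apply, hx, ent_succ]
    have h1 : ent (C w) (fun k => C (y k)) l m = C (ent w y l m) := (map_ent C w y l m).symm
    rw [h1]
    refine (natDegree_mul_le).trans ?_
    rw [natDegree_C, gg_comm]
    have := natDegree_gg_XC (y l)
    omega

end deg

variable {K : Type*} [Field K] [CharZero K] {L : ℕ}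

omit [CharZero K] in
lemma vd_ne_zero_of_inj {y : Fin L → K} (hy : Function.Injective y) : vd y ≠ 0 := by
  unfold vd
  exact Matrix.det_vandermonde_ne_zero_iff.mpr hy

/-- the polynomial in the first variable -/
noncomputable def pol (L : ℕ) (w : K) (y : Fin L → K) : K[X] :=
  MvPolynomial.aeval (Fin.cons X (fun k => C (y k)) : Fin (L + 1) → K[X]) (MM (L + 1) w)

lemma pol_eval (w : K) (y : Fin L → K) (t : K) :
    (pol L w y).eval t = MvPolynomial.eval (Fin.cons t y : Fin (L + 1) → K) (MM (L + 1) w) := by
  unfold pol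
  rw [← coe_evalRingHom]
  have : ∀ F : MvPolynomial (Fin (L + 1)) K, (evalRingHom t) (MvPolynomial.aeval
      (Fin.cons X (fun k => C (y k)) : Fin (L + 1) → K[X]) F) =
      MvPolynomial.eval (Fin.cons t y : Fin (L + 1) → K) F := by
    intro F
    induction F using MvPolynomial.induction_on with
    | C a => simp
    | add p q hp hq => rw [map_add, map_add, map_add, hp, hq]
    | mul_X p k hp =>
      rw [map_mul, map_mul, map_mul, hp, MvPolynomial.aeval_X, MvPolynomial.eval_X]
      congr 1
      refine Fin.cases ?_ (fun k => ?_) k <;> simp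
  exact this _

/-- degree bound -/
theorem natDegree_pol_le (w : K) {y : Fin L → K} (hy : Function.Injective y) :
    (pol L w y).natDegree ≤ 2 * L := by
  rcases eq_or_ne (pol L w y) 0 with h0 | h0
  · rw [h0]; simp
  · have h1 := MM_hom (R := K[X]) w (Fin.cons X (fun k => C (y k)) : Fin (L + 1) → K[X])
    have h2 : (num (C w) (Fin.cons X (fun k => C (y k)) : Fin (L + 1) → K[X])).natDegree ≤ 4 * L :=
      natDegree_num_le w y
    rw [← Polynomial.C_eq_algebraMap] at h1
    rw [h1, vd_cons] at h2
    have hv : vd (fun k => C (y k) : Fin L → K[X]) = C (vd y) := (map_vd C y).symm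
    have hvne : (C (vd y) : K[X]) ≠ 0 := by
      rw [Ne, C_eq_zero]; exact vd_ne_zero_of_inj hy
    have hlin : ∀ k : Fin L, (C (y k) - X : K[X]) ≠ 0 := by
      intro k h
      have := congrArg (Polynomial.eval (y k + 1)) h
      simp at this
    have hprod : (∏ k : Fin L, (C (y k) - X : K[X])) ≠ 0 := by
      rw [Finset.prod_ne_zero_iff]; exact fun k _ => hlin k
    have hdeg : (∏ k : Fin L, (C (y k) - X : K[X])).natDegree = L := by
      rw [natDegree_prod _ _ (fun k _ => hlin k)]
      have : ∀ k : Fin L, (C (y k) - X : K[X]).natDegree = 1 := by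
        intro k
        have : (C (y k) - X : K[X]) = -(X - C (y k)) := by ring
        rw [this, natDegree_neg, natDegree_X_sub_C]
      simp [this]
    rw [hv] at h2
    have e : MvPolynomial.aeval (Fin.cons X (fun k => C (y k)) : Fin (L + 1) → K[X])
      (MM (L + 1) w) = pol L w y := rfl
    rw [e, natDegree_mul (pow_ne_zero 2 (mul_ne_zero hprod hvne)) h0, natDegree_pow,
      natDegree_mul hprod hvne, hdeg, natDegree_C] at h2
    omega

/-! ### the generic formula -/

omit [CharZero K] in
lemma prod_offdiag (g : Fin L → Fin L → K) (hg : ∀ i j, g i j = g j i) :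
    ∏ i, ∏ k, (if k = i then 1 else g i k) = ∏ i, ∏ j ∈ Ioi i, (g i j) ^ 2 := by
  have h1 : ∀ i, ∏ k, (if k = i then 1 else g i k) =
      (∏ k ∈ Ioi i, g i k) * ∏ k ∈ Iio i, g i k := by
    intro i
    rw [← Finset.filter_lt_eq_Ioi, ← Finset.filter_gt_eq_Iio, Finset.prod_filter,
      Finset.prod_filter, ← Finset.prod_mul_distrib]
    apply Finset.prod_congr rfl
    intro k _
    rcases lt_trichotomy i k with h | h | h
    · rw [if_neg h.ne', if_pos h, if_neg h.not_gt, mul_one]
    · rw [if_pos h.symm, if_neg h.not_lt, if_neg h.symm.not_lt, mul_one]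
    · rw [if_neg h.ne, if_neg h.not_gt, if_pos h, one_mul]
  simp only [h1, Finset.prod_mul_distrib]
  have h2 : ∏ i : Fin L, ∏ k ∈ Iio i, g i k = ∏ k : Fin L, ∏ i ∈ Ioi k, g i k := by
    apply Finset.prod_comm'
    intro i k
    simp
  rw [h2, ← Finset.prod_mul_distrib]
  apply Finset.prod_congr rfl
  intro i _
  rw [← Finset.prod_mul_distrib]
  apply Finset.prod_congr rfl
  intro j _
  rw [hg j i]; ring

omit [CharZero K] in
lemma num_eq_det (w : K) (x : Fin L → K) (hD : ∀ i j, D (x i) (x j) ≠ 0) :
    num w x = Matrix.det (Matrix.of fun i j => w / D (x j) (x i) + 1 / D (x i) (x j)) *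
      ((∏ i, D (x i) (x i)) * ∏ i, ∏ j ∈ Ioi i, (gg (x i) (x j)) ^ 2) := by
  rw [← prod_offdiag (fun i j => gg (x i) (x j)) (fun i j => gg_comm _ _),
    ← Finset.prod_mul_distrib]
  unfold num
  have h : (Matrix.of fun i j => ent w x i j) = Matrix.of fun i j =>
      (D (x i) (x i) * ∏ k, if k = i then 1 else gg (x i) (x k)) *
        (Matrix.of fun i j => w / D (x j) (x i) + 1 / D (x i) (x j)) i j := by
    ext i j
    simp only [Matrix.of_apply]
    unfold ent
    rcases eq_or_ne i j with h | h
    · subst h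
      rw [if_pos rfl]
      simp only [or_self]
      have := hD i i
      field_simp
    · rw [if_neg h]
      have e1 : (∏ k, if k = i then 1 else gg (x i) (x k)) =
          gg (x i) (x j) * ∏ k, if k = i ∨ k = j then 1 else gg (x i) (x k) := by
        rw [← Finset.mul_prod_erase univ _ (mem_univ j), ← Finset.mul_prod_erase univ
          (fun k => if k = i ∨ k = j then 1 else gg (x i) (x k)) (mem_univ j)]
        rw [if_neg (by simp [Ne.symm h]), if_pos (by simp), one_mul]
        congr 1
        apply Finset.prod_congr rfl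
        intro k hk
        have hk' : k ≠ j := Finset.ne_of_mem_erase hk
        simp [hk']
      rw [e1]
      unfold gg
      have h1 := hD i j
      have h2 := hD j i
      field_simp
  rw [h, Matrix.det_mul_column, mul_comm]

/-- the polynomial agrees with the determinant expression at generic points -/
theorem RHS_eq (w : K) (n : ℕ) (x : Fin (2 * n) → K) (hx : Function.Injective x)
    (hD : ∀ i j, D (x i) (x j) ≠ 0) :
    RHS w n x = (-1) ^ n * (w ^ n)⁻¹ * MvPolynomial.eval x (MM (2 * n) w) := by
  have h1 := MM_eval w x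
  rw [num_eq_det w x hD] at h1
  have hv : vd x ≠ 0 := vd_ne_zero_of_inj hx
  have hv2 : vd x ^ 2 = ∏ i, ∏ j ∈ Ioi i, (x i - x j) ^ 2 := by
    unfold vd
    rw [Matrix.det_vandermonde, ← Finset.prod_pow]
    apply Finset.prod_congr rfl
    intro i _
    rw [← Finset.prod_pow]
    apply Finset.prod_congr rfl
    intro j _
    ring
  have h2 : MvPolynomial.eval x (MM (2 * n) w) =
      Matrix.det (Matrix.of fun i j => w / D (x j) (x i) + 1 / D (x i) (x j)) *
      ((∏ i, D (x i) (x i)) * ∏ i, ∏ j ∈ Ioi i, (gg (x i) (x j)) ^ 2) / vd x ^ 2 := by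
    rw [h1]; field_simp
  rw [h2, hv2]
  unfold RHS
  have h3 : ∏ i, ∏ j ∈ Ioi i, (D (x i) (x j) * D (x j) (x i)) ^ 2 / (x i - x j) ^ 2 =
      (∏ i, ∏ j ∈ Ioi i, (gg (x i) (x j)) ^ 2) / ∏ i, ∏ j ∈ Ioi i, (x i - x j) ^ 2 := by
    rw [← Finset.prod_div_distrib]
    apply Finset.prod_congr rfl
    intro i _
    rw [← Finset.prod_div_distrib]
    rfl
  rw [h3]
  ring

end Pool.Agent.H68.Izer
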