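import Pool.Agent.H68.Izer.Basic

/-!
# The polynomial `MM`: numerator divided by the square of the Vandermonde product
-/

namespace Pool.Agent.H68.Izer

open Finset MvPolynomial

variable {K : Type*} [Field K] [CharZero K] {L : ℕ}

/-- substitute `X j` for `X i` -/
noncomputable def subst (i j : Fin L) : MvPolynomial (Fin L) K →ₐ[K] MvPolynomial (Fin L) K :=
  aeval (Function.update X i (X j))

omit [CharZero K] in
lemma eval_subst (i j : Fin L) (F : MvPolynomial (Fin L) K) (x : Fin L → K) :
    eval x (subst i j F) = eval (Function.update x i (x j)) F := by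
  induction F using MvPolynomial.induction_on with
  | C a => simp [subst]
  | add p q hp hq => simp [hp, hq]
  | mul_X p k hp =>
    rw [map_mul, map_mul, hp, map_mul]
    congr 1
    rcases eq_or_ne k i with h | h
    · subst h; simp [subst]
    · simp [subst, h]

omit [CharZero K] in
lemma sub_subst_dvd (i j : Fin L) (F : MvPolynomial (Fin L) K) :
    (X i - X j) ∣ F - subst i j F := by
  induction F using MvPolynomial.induction_on with
  | C a => simp [subst]
  | add p q hp hq =>
    rw [map_add]
    have : p + q - (subst i j p + subst i j q) = (p - subst i j p) + (q - subst i j q) := by ring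
    rw [this]
    exact dvd_add hp hq
  | mul_X p k hp =>
    rw [map_mul]
    have : p * X k - subst i j p * subst i j (X k) =
        (p - subst i j p) * X k + subst i j p * (X k - subst i j (X k)) := by ring
    rw [this]
    refine dvd_add (Dvd.dvd.mul_right hp _) (Dvd.dvd.mul_left ?_ _)
    rcases eq_or_ne k i with h | h
    · subst h; simp [subst]
    · simp [subst, h]

omit [CharZero K] in
lemma subst_sub (i j : Fin L) (hij : i ≠ j) : subst i j (X i - X j : MvPolynomial (Fin L) K) = 0 := by
  simp [subst, hij.symm]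

omit [CharZero K] in
lemma dvd_iff_subst {i j : Fin L} (hij : i ≠ j) (F : MvPolynomial (Fin L) K) :
    (X i - X j) ∣ F ↔ subst i j F = 0 := by
  constructor
  · rintro ⟨G, rfl⟩
    rw [map_mul, subst_sub i j hij, zero_mul]
  · intro h
    have := sub_subst_dvd i j F
    rwa [h, sub_zero] at this

lemma dvd_iff_eval {i j : Fin L} (hij : i ≠ j) (F : MvPolynomial (Fin L) K) :
    (X i - X j) ∣ F ↔ ∀ x : Fin L → K, x i = x j → eval x F = 0 := by
  constructor
  · rintro ⟨G, rfl⟩ x hx
    simp [hx]
  · intro h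
    rw [dvd_iff_subst hij]
    apply MvPolynomial.funext
    intro x
    rw [eval_subst, map_zero]
    apply h
    simp [hij.symm]

omit [CharZero K] in
lemma X_sub_X_ne_zero {i j : Fin L} (hij : i ≠ j) : (X i - X j : MvPolynomial (Fin L) K) ≠ 0 := by
  intro h
  rw [sub_eq_zero, X_inj] at h
  exact hij h

omit [CharZero K] in
lemma prime_X_sub_X {i j : Fin L} (hij : i ≠ j) : Prime (X i - X j : MvPolynomial (Fin L) K) := by
  refine ⟨X_sub_X_ne_zero hij, ?_, ?_⟩
  · intro h
    have h1 : (X i - X j : MvPolynomial (Fin L) K) ∣ 1 := h.dvd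
    rw [dvd_iff_subst hij, map_one] at h1
    exact one_ne_zero h1
  · intro a b hab
    rw [dvd_iff_subst hij, map_mul, mul_eq_zero] at hab
    rw [dvd_iff_subst hij, dvd_iff_subst hij]
    exact hab

/-- a symmetric polynomial vanishing on the diagonals is divisible by the squares -/
lemma sq_dvd {i j : Fin L} (hij : i ≠ j) {F : MvPolynomial (Fin L) K}
    (hs : rename (Equiv.swap i j) F = F) (h0 : ∀ x : Fin L → K, x i = x j → eval x F = 0) :
    (X i - X j) ^ 2 ∣ F := by
  obtain ⟨G, rfl⟩ := (dvd_iff_eval hij F).mpr h0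
  rw [pow_two]
  apply mul_dvd_mul_left
  rw [dvd_iff_eval hij]
  intro x hx
  have h1 : rename (Equiv.swap i j) G = -G := by
    rw [map_mul, map_sub, rename_X, rename_X, Equiv.swap_apply_left, Equiv.swap_apply_right] at hs
    apply mul_left_cancel₀ (X_sub_X_ne_zero hij)
    rw [mul_neg, ← hs]; ring
  have h2 := congrArg (eval x) h1
  rw [eval_rename, map_neg] at h2
  have h3 : x ∘ (Equiv.swap i j) = x := by
    funext k
    simp only [Function.comp_apply]
    rcases eq_or_ne k i with h | h
    · rw [h, Equiv.swap_apply_left, hx]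
    · rcases eq_or_ne k j with h' | h'
      · rw [h', Equiv.swap_apply_right, hx]
      · rw [Equiv.swap_apply_of_ne_of_ne h h']
  rw [h3] at h2
  have h4 : (2 : K) * eval x G = 0 := by linear_combination h2
  exact (mul_eq_zero.mp h4).resolve_left two_ne_zero

omit [CharZero K] in
lemma relPrime {i j k l : Fin L} (hij : i < j) (hkl : k < l) (h : (i, j) ≠ (k, l)) :
    IsRelPrime ((X j - X i : MvPolynomial (Fin L) K) ^ 2) ((X l - X k) ^ 2) := by
  apply IsRelPrime.pow
  rw [(prime_X_sub_X hij.ne').irreducible.isRelPrime_iff_not_dvd, dvd_iff_subst hij.ne']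
  intro h0
  have h1 : ∀ x : Fin L → K, x j = x i → x l - x k = 0 := by
    intro x hx
    have := congrArg (eval x) h0
    rw [eval_subst, map_zero, map_sub, eval_X, eval_X] at this
    have hu : Function.update x j (x i) = x := by
      rw [← hx]; exact Function.update_eq_self j x
    rw [hu] at this
    exact this
  have hk : k = i ∨ k = j := by
    by_contra hc
    push Not at hc
    have := h1 (Pi.single k 1) (by simp [hc.1.symm, hc.2.symm])
    simp [hkl.ne'] at this
  have hl : l = i ∨ l = j := by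
    by_contra hc
    push Not at hc
    have := h1 (Pi.single l 1) (by simp [hc.1.symm, hc.2.symm])
    simp [hkl.ne] at this
  rcases hk with rfl | rfl <;> rcases hl with rfl | rfl
  · exact lt_irrefl _ hkl
  · exact h rfl
  · exact lt_asymm hij hkl
  · exact lt_irrefl _ hkl

omit [CharZero K] in
lemma vd_eq {R : Type*} [CommRing R] (x : Fin L → R) :
    vd x = ∏ p ∈ (univ : Finset (Fin L)).sigma fun i => Ioi i, (x p.2 - x p.1) := by
  unfold vd
  rw [Matrix.det_vandermonde, Finset.prod_sigma']

omit [CharZero K] in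
lemma vd_ne_zero : vd (X : Fin L → MvPolynomial (Fin L) K) ≠ 0 := by
  rw [vd_eq, Finset.prod_ne_zero_iff]
  rintro ⟨i, j⟩ hp
  simp only [mem_sigma, mem_univ, mem_Ioi, true_and] at hp
  exact X_sub_X_ne_zero hp.ne'

omit [CharZero K] in
lemma rename_num (w : K) (σ : Equiv.Perm (Fin L)) :
    rename σ (num (C w) (X : Fin L → MvPolynomial (Fin L) K)) = num (C w) X := by
  have h := map_num (rename σ : MvPolynomial (Fin L) K →ₐ[K] _).toRingHom (C w) X
  have h2 : (fun k => (rename σ : MvPolynomial (Fin L) K →ₐ[K] _).toRingHom (X k)) = X ∘ σ := by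
    funext k; simp
  have h3 : (rename σ : MvPolynomial (Fin L) K →ₐ[K] _).toRingHom (C w) = C w := by simp
  rw [h2, h3, num_perm] at h
  exact h

lemma vd_sq_dvd (w : K) :
    vd (X : Fin L → MvPolynomial (Fin L) K) ^ 2 ∣ num (C w) X := by
  rw [vd_eq, ← Finset.prod_pow]
  apply Finset.prod_dvd_of_isRelPrime
  · rintro ⟨i, j⟩ hp ⟨k, l⟩ hp' hne
    simp only [coe_sigma, Set.mem_sigma_iff, coe_univ, Set.mem_univ, coe_Ioi, Set.mem_Ioi,
      true_and] at hp hp'
    apply relPrime hp hp'
    intro h
    apply hne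
    rw [Prod.mk.injEq] at h
    simp [h.1, h.2]
  · rintro ⟨i, j⟩ hp
    simp only [mem_sigma, mem_univ, mem_Ioi, true_and] at hp
    apply sq_dvd hp.ne' (rename_num w _)
    intro x hx
    have h := map_num (eval x) (C w) X
    simp only [eval_C, eval_X] at h
    rw [h]
    exact num_eq_zero w x hp.ne' hx

/-- the polynomial -/
noncomputable def MM (L : ℕ) (w : K) : MvPolynomial (Fin L) K := (vd_sq_dvd (L := L) w).choose

lemma MM_spec (L : ℕ) (w : K) :
    num (C w) (X : Fin L → MvPolynomial (Fin L) K) = vd X ^ 2 * MM L w :=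
  (vd_sq_dvd (L := L) w).choose_spec

lemma MM_hom {R : Type*} [CommRing R] [Algebra K R] (w : K) (x : Fin L → R) :
    num (algebraMap K R w) x = vd x ^ 2 * aeval x (MM L w) := by
  have h := congrArg (aeval x) (MM_spec L w)
  have h1 := map_num (aeval x : MvPolynomial (Fin L) K →ₐ[K] R).toRingHom (C w) X
  have h2 := map_vd (aeval x : MvPolynomial (Fin L) K →ₐ[K] R).toRingHom X
  simp only [AlgHom.toRingHom_eq_coe, RingHom.coe_coe, aeval_X, aeval_C] at h1 h2
  rw [h1, map_mul, map_pow, h2] at h
  exact h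

omit [CharZero K] in
lemma eval_aeval' {M : ℕ} (y : Fin L → K) (g : Fin M → MvPolynomial (Fin L) K)
    (F : MvPolynomial (Fin M) K) : eval y (aeval g F) = eval (fun i => eval y (g i)) F := by
  induction F using MvPolynomial.induction_on with
  | C a => simp
  | add p q hp hq => rw [map_add, map_add, map_add, hp, hq]
  | mul_X p k hp => rw [map_mul, map_mul, map_mul, hp, aeval_X, eval_X]

lemma MM_eval (w : K) (x : Fin L → K) :
    num w x = vd x ^ 2 * eval x (MM L w) := by
  have h := MM_hom w x
  have h2 : aeval x (MM L w) = eval x (MM L w) := RingHom.congr_fun (coe_aeval_eq_eval x) _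
  rw [h2] at h
  exact h

lemma MM_rename (w : K) (σ : Equiv.Perm (Fin L)) : rename σ (MM L w) = MM L w := by
  have h := congrArg (rename σ) (MM_spec L w)
  rw [rename_num, map_mul, map_pow] at h
  have h2 : rename σ (vd (X : Fin L → MvPolynomial (Fin L) K)) ^ 2 = vd X ^ 2 := by
    have h3 := map_vd (rename σ : MvPolynomial (Fin L) K →ₐ[K] _).toRingHom X
    have h4 : (fun k => (rename σ : MvPolynomial (Fin L) K →ₐ[K] _).toRingHom (X k)) = X ∘ σ := by
      funext k; simp
    rw [h4] at h3
    have h5 : rename σ (vd (X : Fin L → MvPolynomial (Fin L) K)) = vd (X ∘ σ) := h3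
    rw [h5, vd_perm]
  rw [h2, MM_spec] at h
  exact (mul_left_cancel₀ (pow_ne_zero 2 vd_ne_zero) h).symm

lemma MM_perm (w : K) (σ : Equiv.Perm (Fin L)) (x : Fin L → K) :
    eval (x ∘ σ) (MM L w) = eval x (MM L w) := by
  rw [← eval_rename, MM_rename]

/-- value at a fixed point -/
lemma MM_q (w q : K) (hq : q ^ 2 - q + 1 = 0) (y : Fin L → K) :
    eval (Fin.cons q y : Fin (L + 1) → K) (MM (L + 1) w) =
      (w + 1) * (∏ k, (y k - q) ^ 2) * eval y (MM L w) := by
  -- polynomial identity in `y`
  have hQ : (C q : MvPolynomial (Fin L) K) ^ 2 - C q + 1 = 0 := by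
    rw [← C_pow, ← C_sub, ← C_1, ← C_add, hq, C_0]
  have h1 := num_q (C w) (C q) hQ (X : Fin L → MvPolynomial (Fin L) K)
  have h2 := MM_hom (R := MvPolynomial (Fin L) K) w
    (Fin.cons (C q) X : Fin (L + 1) → MvPolynomial (Fin L) K)
  rw [algebraMap_eq] at h2
  rw [h2, MM_spec, vd_cons] at h1
  have h3 : (∏ k, gg (C q) (X k : MvPolynomial (Fin L) K)) ^ 2 =
      (∏ k, (X k - C q)) ^ 2 * (∏ k, (X k - C q : MvPolynomial (Fin L) K) ^ 2) := by
    have : ∀ k : Fin L, gg (C q) (X k : MvPolynomial (Fin L) K) = -(X k - C q) ^ 2 := fun k =>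
      gg_q _ _ hQ
    simp only [this]
    rw [← Finset.prod_pow, ← Finset.prod_pow, ← Finset.prod_mul_distrib]
    apply Finset.prod_congr rfl
    intro k _
    ring
  rw [h3] at h1
  have hne : (∏ k, (X k - C q : MvPolynomial (Fin L) K)) ≠ 0 := by
    rw [Finset.prod_ne_zero_iff]
    intro k _ h
    have := congrArg (eval (fun _ => q + 1)) h
    simp at this
  have h4 : aeval (Fin.cons (C q) X : Fin (L + 1) → MvPolynomial (Fin L) K) (MM (L + 1) w) =
      (C w + 1) * (∏ k, (X k - C q : MvPolynomial (Fin L) K) ^ 2) * MM L w := by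
    apply mul_left_cancel₀ (mul_ne_zero (pow_ne_zero 2 hne) (pow_ne_zero 2 (vd_ne_zero (K := K) (L := L))))
    linear_combination h1
  have h5 := congrArg (eval y) h4
  have h6 : eval y (aeval (Fin.cons (C q) X : Fin (L + 1) → MvPolynomial (Fin L) K)
      (MM (L + 1) w)) = eval (Fin.cons q y : Fin (L + 1) → K) (MM (L + 1) w) := by
    rw [eval_aeval']
    congr 2
    funext i
    refine Fin.cases ?_ (fun i => ?_) i <;> simp
  rw [h6] at h5
  rw [h5]
  simp [map_prod]

/-- recursion -/
lemma MM_rec (w a b : K) (hab : 1 - a + a * b = 0) (y : Fin L → K) :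
    eval (Fin.cons a (Fin.cons b y : Fin (L + 1) → K) : Fin (L + 2) → K) (MM (L + 2) w) =
      -w * ((a - b) * ∏ k, (D (y k) b * D a (y k))) ^ 2 * eval y (MM L w) := by
  rcases eq_or_ne a b with rfl | hne
  · have hq : a ^ 2 - a + 1 = 0 := by linear_combination hab
    rw [MM_q w a hq, Fin.prod_univ_succ]
    simp
  · have hAB : (1 : MvPolynomial (Fin L) K) - C a + C a * C b = 0 := by
      rw [← C_mul, ← C_1, ← C_sub, ← C_add, hab, C_0]
    have h1 := num_rec (C w) (C a) (C b) hAB (X : Fin L → MvPolynomial (Fin L) K)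
    have h2 := MM_hom (R := MvPolynomial (Fin L) K) w
      (Fin.cons (C a) (Fin.cons (C b) X : Fin (L + 1) → MvPolynomial (Fin L) K) :
        Fin (L + 2) → MvPolynomial (Fin L) K)
    rw [algebraMap_eq] at h2
    rw [h2, MM_spec, vd_cons, vd_cons, Fin.prod_univ_succ] at h1
    simp only [Fin.cons_zero, Fin.cons_succ] at h1
    have h3 : (∏ k, gg (C a) (X k : MvPolynomial (Fin L) K) * gg (C b) (X k)) ^ 2 =
        (∏ k, (D (X k) (C b) * D (C a) (X k : MvPolynomial (Fin L) K))) ^ 2 *
        ((∏ k, (X k - C a)) ^ 2 * (∏ k, (X k - C b : MvPolynomial (Fin L) K)) ^ 2) := by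
      have : ∀ k : Fin L, gg (C a) (X k : MvPolynomial (Fin L) K) * gg (C b) (X k) =
          -(D (X k) (C b) * D (C a) (X k)) * ((C a - X k) * (C b - X k)) := fun k =>
        gg_gg _ _ _ hAB
      simp only [this]
      rw [← Finset.prod_pow, ← Finset.prod_pow, ← Finset.prod_pow, ← Finset.prod_pow,
        ← Finset.prod_mul_distrib, ← Finset.prod_mul_distrib]
      apply Finset.prod_congr rfl
      intro k _
      ring
    rw [h3] at h1
    have hne2 : ∀ c : K, (∏ k, (X k - C c : MvPolynomial (Fin L) K)) ≠ 0 := by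
      intro c
      rw [Finset.prod_ne_zero_iff]
      intro k _ h
      have := congrArg (eval (fun _ => c + 1)) h
      simp at this
    have hba : (C b - C a : MvPolynomial (Fin L) K) ≠ 0 := by
      rw [← C_sub, Ne, C_eq_zero, sub_eq_zero]
      exact hne.symm
    have h4 : aeval (Fin.cons (C a) (Fin.cons (C b) X : Fin (L + 1) → MvPolynomial (Fin L) K) :
        Fin (L + 2) → MvPolynomial (Fin L) K) (MM (L + 2) w) =
        -C w * ((C a - C b) * ∏ k, (D (X k) (C b) * D (C a) (X k : MvPolynomial (Fin L) K))) ^ 2 *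
          MM L w := by
      apply mul_left_cancel₀ (mul_ne_zero (mul_ne_zero (pow_ne_zero 2 (hne2 a))
        (pow_ne_zero 2 (hne2 b))) (mul_ne_zero (pow_ne_zero 2 hba)
          (pow_ne_zero 2 (vd_ne_zero (K := K) (L := L)))))
      linear_combination h1
    have h5 := congrArg (eval y) h4
    have h6 : eval y (aeval (Fin.cons (C a) (Fin.cons (C b) X : Fin (L + 1) →
        MvPolynomial (Fin L) K) : Fin (L + 2) → MvPolynomial (Fin L) K) (MM (L + 2) w)) =
        eval (Fin.cons a (Fin.cons b y : Fin (L + 1) → K) : Fin (L + 2) → K) (MM (L + 2) w) := by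
      rw [eval_aeval']
      congr 2
      funext i
      refine Fin.cases ?_ (fun i => Fin.cases ?_ (fun i => ?_) i) i <;> simp
    rw [h6] at h5
    rw [h5]
    simp [map_prod, D]

end Pool.Agent.H68.Izer
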