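import Pool.Agent.H68.Izer.Deg

/-!
# Uniqueness
-/

namespace Pool.Agent.H68.Izer

open Finset Polynomial

variable {K : Type*} [Field K] [CharZero K]

/-- generic points -/
structure Gen {N : ℕ} (x : Fin N → K) : Prop where
  inj : Function.Injective x
  hD : ∀ i j, D (x i) (x j) ≠ 0
  h0 : ∀ i, x i ≠ 0
  h1 : ∀ i, x i ≠ 1

omit [CharZero K] in
lemma DXC_ne (b : K) : (D X (C b) : K[X]) ≠ 0 := by
  intro h
  have := congrArg (Polynomial.eval 1) h
  simp [D] at this

omit [CharZero K] in
lemma DCX_ne (b : K) : (D (C b) X : K[X]) ≠ 0 := by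
  intro h
  have := congrArg (Polynomial.eval 0) h
  simp [D] at this

omit [CharZero K] in
lemma DXX_ne : (D X X : K[X]) ≠ 0 := by
  intro h
  have := congrArg (Polynomial.eval 0) h
  simp [D] at this

/-- A separately polynomial function vanishing at the generic points is zero. -/
theorem dense {N : ℕ} {E : (Fin N → K) → K}
    (hE : ∀ i x, ∃ p : K[X], ∀ t, E (Function.update x i t) = p.eval t)
    (h0 : ∀ x, Gen x → E x = 0) : ∀ x, E x = 0 := by
  classical
  have key : ∀ S : Finset (Fin N), ∀ x : Fin N → K,
      (∀ i ∉ S, ∀ j ∉ S, i ≠ j → x i ≠ x j) → (∀ i ∉ S, ∀ j ∉ S, D (x i) (x j) ≠ 0) →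
      (∀ i ∉ S, x i ≠ 0 ∧ x i ≠ 1) → E x = 0 := by
    intro S
    induction S using Finset.induction_on with
    | empty =>
      intro x h1 h2 h3
      apply h0
      refine ⟨?_, fun i j => h2 i (by simp) j (by simp), fun i => (h3 i (by simp)).1,
        fun i => (h3 i (by simp)).2⟩
      intro i j hij
      by_contra hne
      exact h1 i (by simp) j (by simp) hne hij
    | insert i S hiS ih =>
      intro x h1 h2 h3
      obtain ⟨p, hp⟩ := hE i x
      set B : K[X] := (∏ j ∈ (insert i S)ᶜ, ((X - C (x j)) * D X (C (x j)) * D (C (x j)) X)) *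
        (D X X * X * (X - C 1)) with hB
      have hBne : B ≠ 0 := by
        rw [hB]
        refine mul_ne_zero ?_ (mul_ne_zero (mul_ne_zero DXX_ne X_ne_zero) (X_sub_C_ne_zero 1))
        rw [Finset.prod_ne_zero_iff]
        intro j _
        exact mul_ne_zero (mul_ne_zero (X_sub_C_ne_zero _) (DXC_ne _)) (DCX_ne _)
      have hpB : p * B = 0 := by
        apply Polynomial.funext
        intro t
        rw [eval_mul, eval_zero]
        by_cases hBt : B.eval t = 0
        · rw [hBt, mul_zero]
        · rw [← hp t]
          rw [hB, eval_mul] at hBt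
          obtain ⟨hb1, hb2⟩ := mul_ne_zero_iff.mp hBt
          rw [eval_prod, Finset.prod_ne_zero_iff] at hb1
          rw [eval_mul, eval_mul, mul_ne_zero_iff, mul_ne_zero_iff] at hb2
          obtain ⟨⟨hb3, hb4⟩, hb5⟩ := hb2
          have hDX : (D X X : K[X]).eval t = D t t := by
            simp only [D, eval_add, eval_sub, eval_mul, eval_one, eval_X]
          rw [hDX] at hb3
          rw [eval_X] at hb4
          rw [eval_sub, eval_X, eval_C, sub_ne_zero] at hb5
          have hb : ∀ j, j ∉ S → j ≠ i → t ≠ x j ∧ D t (x j) ≠ 0 ∧ D (x j) t ≠ 0 := by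
            intro j hjS hji
            have hj := hb1 j (by simp [hjS, hji])
            rw [eval_mul, eval_mul, mul_ne_zero_iff, mul_ne_zero_iff] at hj
            obtain ⟨⟨ha1, ha2⟩, ha3⟩ := hj
            rw [eval_sub, eval_X, eval_C, sub_ne_zero] at ha1
            have hd1 : (D X (C (x j)) : K[X]).eval t = D t (x j) := by
              simp only [D, eval_add, eval_sub, eval_mul, eval_one, eval_C, eval_X]
            have hd2 : (D (C (x j)) X : K[X]).eval t = D (x j) t := by
              simp only [D, eval_add, eval_sub, eval_mul, eval_one, eval_C, eval_X]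
            rw [hd1] at ha2
            rw [hd2] at ha3
            exact ⟨ha1, ha2, ha3⟩
          rw [ih (Function.update x i t), zero_mul]
          · intro a ha b hb' hab
            rcases eq_or_ne a i with rfl | hai
            · rcases eq_or_ne b a with rfl | hbi
              · exact absurd rfl hab
              · rw [Function.update_self, Function.update_of_ne hbi]
                exact (hb b hb' hbi).1
            · rcases eq_or_ne b i with rfl | hbi
              · rw [Function.update_self, Function.update_of_ne hai]
                exact (hb a ha hai).1.symm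
              · rw [Function.update_of_ne hai, Function.update_of_ne hbi]
                exact h1 a (by simp [ha, hai]) b (by simp [hb', hbi]) hab
          · intro a ha b hb'
            rcases eq_or_ne a i with rfl | hai
            · rcases eq_or_ne b a with rfl | hbi
              · rw [Function.update_self]; exact hb3
              · rw [Function.update_self, Function.update_of_ne hbi]
                exact (hb b hb' hbi).2.1
            · rcases eq_or_ne b i with rfl | hbi
              · rw [Function.update_self, Function.update_of_ne hai]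
                exact (hb a ha hai).2.2
              · rw [Function.update_of_ne hai, Function.update_of_ne hbi]
                exact h2 a (by simp [ha, hai]) b (by simp [hb', hbi])
          · intro a ha
            rcases eq_or_ne a i with rfl | hai
            · rw [Function.update_self]; exact ⟨hb4, hb5⟩
            · rw [Function.update_of_ne hai]
              exact h3 a (by simp [ha, hai])
      have hp0 : p = 0 := (mul_eq_zero.mp hpB).resolve_right hBne
      have := hp (x i)
      rw [Function.update_eq_self, hp0, eval_zero] at this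
      exact this
  intro x
  exact key univ x (by simp) (by simp) (by simp)

omit [CharZero K] in
/-- zeros -/
lemma zeros_inj {M : ℕ} {y : Fin M → K} (hy : Gen y) : Function.Injective
    (Sum.elim (fun j => 1 / (1 - y j)) (fun j => (y j - 1) / y j) : Fin M ⊕ Fin M → K) := by
  have h1 : ∀ j, (1 - y j) ≠ 0 := fun j => sub_ne_zero.mpr (hy.h1 j).symm
  have h0 := hy.h0
  have hx : ∀ i j, 1 / (1 - y i) ≠ (y j - 1) / y j := by
    intro i j h
    apply hy.hD j i
    rw [div_eq_div_iff (h1 i) (h0 j)] at h
    unfold D
    linear_combination h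
  intro a b hab
  rcases a with i | i <;> rcases b with j | j
  · simp only [Sum.elim_inl] at hab
    rw [div_eq_div_iff (h1 i) (h1 j)] at hab
    rw [hy.inj (show y i = y j by linear_combination hab)]
  · exact absurd hab (hx i j)
  · exact absurd hab.symm (hx j i)
  · simp only [Sum.elim_inr] at hab
    rw [div_eq_div_iff (h0 i) (h0 j)] at hab
    rw [hy.inj (show y i = y j by linear_combination hab)]

omit [CharZero K] in
lemma zeros_ne_q {M : ℕ} {y : Fin M → K} (hy : Gen y) {q : K} (hq : q ^ 2 - q + 1 = 0)
    (a : Fin M ⊕ Fin M) :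
    (Sum.elim (fun j => 1 / (1 - y j)) (fun j => (y j - 1) / y j) : Fin M ⊕ Fin M → K) a ≠ q := by
  have h1 : ∀ j, (1 - y j) ≠ 0 := fun j => sub_ne_zero.mpr (hy.h1 j).symm
  have h0 := hy.h0
  have hyq : ∀ j, y j ≠ q := by
    intro j h
    apply hy.hD j j
    rw [h]; unfold D; linear_combination hq
  have hq0 : q ≠ 0 := by rintro rfl; simp at hq
  have hq1 : 1 - q ≠ 0 := by
    intro h
    have : q = 1 := by linear_combination -h
    rw [this] at hq
    norm_num at hq
  rcases a with i | i
  · simp only [Sum.elim_inl]
    intro h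
    rw [div_eq_iff (h1 i)] at h
    apply hyq i
    have : q * (y i - q) = 0 := by linear_combination h - hq
    exact sub_eq_zero.mp ((mul_eq_zero.mp this).resolve_left hq0)
  · simp only [Sum.elim_inr]
    intro h
    rw [div_eq_iff (h0 i)] at h
    apply hyq i
    have : (1 - q) * (y i - q) = 0 := by linear_combination h + hq
    exact sub_eq_zero.mp ((mul_eq_zero.mp this).resolve_left hq1)

omit [CharZero K] in
lemma exists_perm {m : ℕ} {i j : Fin (m + 2)} (hij : i ≠ j) :
    ∃ σ : Equiv.Perm (Fin (m + 2)), σ 0 = i ∧ σ 1 = j := by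
  refine ⟨Equiv.swap 0 i * Equiv.swap 1 (Equiv.swap 0 i j), ?_, ?_⟩
  · have h0 : Equiv.swap 1 (Equiv.swap 0 i j) 0 = 0 := by
      apply Equiv.swap_apply_of_ne_of_ne (by simp)
      intro h
      have := congrArg (Equiv.swap 0 i) h
      rw [Equiv.swap_apply_self, Equiv.swap_apply_left] at this
      exact hij this
    rw [Equiv.Perm.mul_apply, h0, Equiv.swap_apply_left]
  · rw [Equiv.Perm.mul_apply, Equiv.swap_apply_left, Equiv.swap_apply_self]

lemma eq_cons_cons {K : Type*} {m : ℕ} (x : Fin (m + 2) → K) :
    x = (Fin.cons (x 0) (Fin.cons (x 1) (fun k => x k.succ.succ) : Fin (m + 1) → K) :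
      Fin (m + 2) → K) := by
  funext i
  refine Fin.cases rfl (fun i => Fin.cases rfl (fun i => rfl) i) i

omit [CharZero K] in
/-- vanishing at all pairs -/
lemma zero_of_pair {m : ℕ} {H : (Fin (m + 2) → K) → K}
    (hs : ∀ (σ : Equiv.Perm (Fin (m + 2))) x, H (x ∘ σ) = H x)
    (hr : ∀ (a b : K) (y : Fin m → K), 1 - a + a * b = 0 →
      H (Fin.cons a (Fin.cons b y : Fin (m + 1) → K) : Fin (m + 2) → K) = 0)
    {x : Fin (m + 2) → K} {i j : Fin (m + 2)} (hij : i ≠ j) (h : 1 - x i + x i * x j = 0) :
    H x = 0 := by
  obtain ⟨σ, h0, h1⟩ := exists_perm hij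
  rw [← hs σ x, eq_cons_cons (x ∘ σ)]
  apply hr
  simp only [Function.comp_apply, h0, h1]
  exact h

/-- **Uniqueness.** -/
theorem uniq {n : ℕ} {q : K} (hq : q ^ 2 - q + 1 = 0) {H : (Fin (2 * n + 2) → K) → K}
    (hs : ∀ (σ : Equiv.Perm (Fin (2 * n + 2))) x, H (x ∘ σ) = H x)
    (hp : ∀ y : Fin (2 * n + 1) → K, ∃ p : K[X], (Function.Injective y → p.natDegree ≤ 4 * n + 2) ∧
      ∀ t, H (Fin.cons t y : Fin (2 * n + 2) → K) = p.eval t)
    (hr : ∀ (a b : K) (y : Fin (2 * n) → K), 1 - a + a * b = 0 →
      H (Fin.cons a (Fin.cons b y : Fin (2 * n + 1) → K) : Fin (2 * n + 2) → K) = 0)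
    (hc : ∀ y : Fin (2 * n) → K, (∀ k, y k ≠ q) → ∃ g : K[X], ∀ s,
      H (Fin.cons q (Fin.cons s y : Fin (2 * n + 1) → K) : Fin (2 * n + 2) → K) =
        (s - q) ^ 3 * g.eval s) :
    ∀ x, H x = 0 := by
  -- polynomial in any variable
  have hpi : ∀ (i : Fin (2 * n + 2)) (x : Fin (2 * n + 2) → K), ∃ p : K[X],
      ∀ t, H (Function.update x i t) = p.eval t := by
    intro i x
    obtain ⟨p, -, hp'⟩ := hp (fun k => x (Equiv.swap 0 i k.succ))
    refine ⟨p, fun t => ?_⟩
    rw [← hp' t, ← hs (Equiv.swap 0 i) (Function.update x i t)]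
    congr 1
    funext k
    refine Fin.cases ?_ (fun k => ?_) k
    · simp
    · simp only [Function.comp_apply, Fin.cons_succ]
      rw [Function.update_of_ne]
      intro h
      have := congrArg (Equiv.swap 0 i) h
      rw [Equiv.swap_apply_self, Equiv.swap_apply_right] at this
      exact Fin.succ_ne_zero _ this
  have hqne : ∀ {M : ℕ} {y : Fin M → K}, Gen y → ∀ k, y k ≠ q := by
    intro M y hy k h
    apply hy.hD k k
    rw [h]; unfold D; linear_combination hq
  -- step 1
  have step1 : ∀ (y : Fin (2 * n) → K), Gen y → ∀ s,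
      H (Fin.cons q (Fin.cons s y : Fin (2 * n + 1) → K) : Fin (2 * n + 2) → K) = 0 := by
    intro y hy s
    obtain ⟨g, hg⟩ := hc y (hqne hy)
    -- the polynomial in `s`
    have hdeg : ∃ p : K[X], p.natDegree ≤ 4 * n + 2 ∧ ∀ s,
        H (Fin.cons q (Fin.cons s y : Fin (2 * n + 1) → K) : Fin (2 * n + 2) → K) = p.eval s := by
      obtain ⟨p, hp1, hp2⟩ := hp (Fin.cons q y)
      refine ⟨p, hp1 ?_, fun s => ?_⟩
      · rw [Fin.cons_injective_iff]
        refine ⟨?_, hy.inj⟩
        rintro ⟨k, hk⟩
        exact hqne hy k hk
      · rw [← hp2 s, ← hs (Equiv.swap 0 1)]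
        congr 1
        funext k
        refine Fin.cases ?_ (fun k => Fin.cases ?_ (fun k => ?_) k) k
        · simp only [Function.comp_apply, Equiv.swap_apply_left, Fin.cons_zero]
          rfl
        · show (Fin.cons q (Fin.cons s y : Fin (2 * n + 1) → K) : Fin (2 * n + 2) → K)
            (Equiv.swap 0 1 1) = _
          rw [Equiv.swap_apply_right]
          rfl
        · simp only [Function.comp_apply]
          rw [Equiv.swap_apply_of_ne_of_ne (Fin.succ_ne_zero _)]
          · rfl
          · intro h
            rw [← Fin.succ_zero_eq_one, Fin.succ_inj] at h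
            exact Fin.succ_ne_zero _ h
    obtain ⟨p, hp1, hp2⟩ := hdeg
    have hpg : p = (X - C q) ^ 3 * g := by
      apply Polynomial.funext
      intro t
      rw [← hp2, hg]
      simp
    have hg0 : g = 0 := by
      by_contra hgne
      have hd : g.natDegree + 3 ≤ 4 * n + 2 := by
        rw [hpg, natDegree_mul (pow_ne_zero 3 (X_sub_C_ne_zero q)) hgne, natDegree_pow,
          natDegree_X_sub_C] at hp1
        omega
      apply hgne
      apply eq_zero_of_natDegree_lt_card_of_eval_eq_zero g (zeros_inj hy)
      · intro a
        have h1 : H (Fin.cons q (Fin.cons ((Sum.elim (fun j => 1 / (1 - y j))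
            (fun j => (y j - 1) / y j) : Fin (2 * n) ⊕ Fin (2 * n) → K) a) y :
            Fin (2 * n + 1) → K) : Fin (2 * n + 2) → K) = 0 := by
          rcases a with j | j
          · apply zero_of_pair hs hr (i := 1) (j := j.succ.succ)
            · intro h
              rw [← Fin.succ_zero_eq_one, Fin.succ_inj] at h
              exact Fin.succ_ne_zero _ h.symm
            · show 1 - 1 / (1 - y j) + 1 / (1 - y j) * y j = 0
              have : 1 - y j ≠ 0 := sub_ne_zero.mpr (hy.h1 j).symm
              field_simp
              ring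
          · apply zero_of_pair hs hr (i := j.succ.succ) (j := 1)
            · intro h
              rw [← Fin.succ_zero_eq_one, Fin.succ_inj] at h
              exact Fin.succ_ne_zero _ h
            · show 1 - y j + y j * ((y j - 1) / y j) = 0
              have := hy.h0 j
              field_simp
              ring
        rw [hg] at h1
        refine (mul_eq_zero.mp h1).resolve_left (pow_ne_zero 3 (sub_ne_zero.mpr ?_))
        exact zeros_ne_q hy hq a
      · rw [Fintype.card_sum, Fintype.card_fin]
        omega
    rw [hg, hg0, eval_zero, mul_zero]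
  -- step 2
  have step2 : ∀ (y : Fin (2 * n + 1) → K), Gen y → ∀ t,
      H (Fin.cons t y : Fin (2 * n + 2) → K) = 0 := by
    intro y hy t
    obtain ⟨p, hp1, hp2⟩ := hp y
    have hp0 : p = 0 := by
      set f : Option (Fin (2 * n + 1) ⊕ Fin (2 * n + 1)) → K := fun o => o.elim q
        (Sum.elim (fun j => 1 / (1 - y j)) (fun j => (y j - 1) / y j)) with hf
      apply eq_zero_of_natDegree_lt_card_of_eval_eq_zero p (f := f)
      · intro a b hab
        rcases a with _ | a <;> rcases b with _ | b
        · rfl
        · exact absurd hab.symm (zeros_ne_q hy hq b)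
        · exact absurd hab (zeros_ne_q hy hq a)
        · rw [zeros_inj hy hab]
      · intro a
        rcases a with _ | a
        · rw [← hp2]
          show H (Fin.cons q y) = 0
          have e : y = (Fin.cons (y 0) (fun k => y k.succ) : Fin (2 * n + 1) → K) := by
            funext k
            refine Fin.cases rfl (fun k => rfl) k
          rw [e]
          apply step1
          exact ⟨fun i j h => Fin.succ_injective _ (hy.inj h), fun i j => hy.hD _ _,
            fun i => hy.h0 _, fun i => hy.h1 _⟩
        · rw [← hp2]
          rcases a with j | j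
          · apply zero_of_pair hs hr (i := 0) (j := j.succ)
            · exact (Fin.succ_ne_zero j).symm
            · show 1 - 1 / (1 - y j) + 1 / (1 - y j) * y j = 0
              have : 1 - y j ≠ 0 := sub_ne_zero.mpr (hy.h1 j).symm
              field_simp
              ring
          · apply zero_of_pair hs hr (i := j.succ) (j := 0)
            · exact Fin.succ_ne_zero j
            · show 1 - y j + y j * ((y j - 1) / y j) = 0
              have := hy.h0 j
              field_simp
              ring
      · rw [Fintype.card_option, Fintype.card_sum, Fintype.card_fin]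
        have := hp1 hy.inj
        omega
    rw [hp2, hp0, eval_zero]
  apply dense hpi
  intro x hx
  have e : x = (Fin.cons (x 0) (fun k => x k.succ) : Fin (2 * n + 2) → K) := by
    funext k
    refine Fin.cases rfl (fun k => rfl) k
  rw [e]
  apply step2
  exact ⟨fun i j h => Fin.succ_injective _ (hx.inj h), fun i j => hx.hD _ _,
    fun i => hx.h0 _, fun i => hx.h1 _⟩

end Pool.Agent.H68.Izer
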